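import Mathlib

open MeasureTheory Measure ProbabilityTheory Filter Topology Set unitInterval
open scoped ENNReal

namespace Pool.Agent.Results.MP_f93fdf_pr.NoStar

/-- birth times; `i :: u` is the child number `i + 1` of `u`, `X u j` the waiting time before child number `j + 1` -/
noncomputable def B (X : List ℕ → ℕ → ℝ≥0∞) : List ℕ → ℝ≥0∞
  | [] => 0
  | i :: u => B X u + ∑ j ∈ Finset.range (i + 1), X u j

/-- explosion time -/
noncomputable def τ (X : List ℕ → ℕ → ℝ≥0∞) : ℝ≥0∞ := sInf {t | {x | B X x ≤ t}.Infinite}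

/-- individuals born before the explosion -/
def T (X : List ℕ → ℕ → ℝ≥0∞) : Set (List ℕ) := {x | B X x < τ X}

lemma inf (X : List ℕ → ℕ → ℝ≥0∞) (h0 : ∀ u, 0 < X u 0) (h : τ X < ∞)
    (h1 : ∀ u, {i | B X (i :: u) ≤ τ X + 1}.Finite) : (T X).Infinite := fun f => by
  have ch : ∀ S : Set (List ℕ), S.Finite → (⋃ u ∈ S, (· :: u) '' {i | B X (i :: u) ≤ τ X + 1}).Finite :=
    fun S hS => hS.biUnion fun u _ => (h1 u).image _
  have lt : ∀ i u, B X (i :: u) ≤ τ X + 1 → B X u < B X (i :: u) := fun i u hx =>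
    ENNReal.lt_add_right ((le_self_add.trans hx).trans_lt (by simpa using h)).ne ((h0 u).trans_le
      (Finset.single_le_sum (fun _ _ => zero_le) (Finset.mem_range.2 i.succ_pos))).ne'
  have a : {x | B X x ≤ τ X}.Finite := ((ch _ f).insert []).subset fun x hx => by
    rcases x with _ | ⟨i, u⟩
    · simp
    have : B X (i :: u) ≤ τ X + 1 := le_trans hx le_self_add
    exact .inr (mem_biUnion (x := u) ((lt i u this).trans_le hx) ⟨i, this, rfl⟩)
  have h' : τ X < τ X + 1 := ENNReal.lt_add_right h.ne one_ne_zero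
  have : (𝓝[>] τ X).NeBot := nhdsGT_neBot_of_exists_gt ⟨_, h⟩
  have ev : ∀ᶠ t in 𝓝[>] τ X, ∀ x ∈ ⋃ u ∈ {x | B X x ≤ τ X}, (· :: u) '' {i | B X (i :: u) ≤ τ X + 1},
      τ X < B X x → t < B X x := (eventually_all_finite (ch _ a)).2 fun x _ => by
    by_cases e : τ X < B X x
    · filter_upwards [Ioo_mem_nhdsGT e] with t h _ using h.2
    · simp [e]
  obtain ⟨t, t1, t2, t3⟩ := (ev.and (Ioo_mem_nhdsGT h')).exists
  obtain ⟨s, s1, s2⟩ := sInf_lt_iff.1 t2
  refine s1 (a.subset fun x hx => ?_)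
  induction x with
  | nil => simp [B]
  | cons i u ih =>
    by_contra c
    exact (t1 _ (mem_biUnion (x := u) (ih (show B X u ≤ s from le_self_add.trans hx)) ⟨i, (hx.trans s2.le).trans t3.le, rfl⟩)
      (not_le.1 c)).not_ge (hx.trans s2.le)

noncomputable def hf : I := ⟨1 / 2, by norm_num, by norm_num⟩
lemma geo (i : ℕ) : geometricMeasure hf {i} = 2⁻¹ ^ (i + 1) := by
  rw [geometricMeasure_singleton (by simp [hf, Subtype.ext_iff]), ← ENNReal.ofReal_ofNat,
    ← ENNReal.ofReal_inv_of_pos two_pos, ← ENNReal.ofReal_pow (by norm_num)]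
  norm_num [hf, pow_succ]

def a (j : ℕ) : ℕ := (j + 3) * (2 * (j + 1))
def c : ℕ → ℕ
  | 0 => 1
  | j + 1 => (c j + j) * 2 ^ a j * c j
def N (j : ℕ) : ℕ := (c j + j) * 2 ^ a j
def C : ℕ → Finset (List ℕ)
  | 0 => {[]}
  | j + 1 => (Finset.range (N j) ×ˢ C j).image fun p => p.1 :: p.2

lemma c1 (j : ℕ) : 1 ≤ c j := by
  induction j with
  | zero => rfl
  | succ j ih => exact Nat.mul_pos (Nat.mul_pos (by omega) (by positivity)) ih
lemma N1 (j : ℕ) : j < N j := by
  have := c1 j; exact (Nat.le_mul_of_pos_right _ (by positivity)).trans' (by omega)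
lemma Nm : StrictMono N := strictMono_nat_of_lt_succ fun j => by
  have : c j ≤ c (j + 1) := Nat.le_mul_of_pos_left _ (N1 j).pos
  exact Nat.mul_lt_mul_of_lt_of_le (by omega) (Nat.pow_le_pow_right two_pos (by unfold a; gcongr <;> omega))
    (by positivity)
lemma cC (j : ℕ) : (C j).card ≤ c j := by
  induction j with
  | zero => rfl
  | succ j ih => exact Finset.card_image_le.trans (by simpa [c, N] using Nat.mul_le_mul_left _ ih)
lemma mC {j i v} (h : i < N j) (hv : v ∈ C j) : i :: v ∈ C (j + 1) :=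
  Finset.mem_image.2 ⟨(i, v), by simp [h, hv], rfl⟩
lemma lC (j : ℕ) : ∀ v ∈ C j, v.length = j := by
  induction j with
  | zero => simp [C]
  | succ j ih => simp only [C, Finset.forall_mem_image, Finset.mem_product]; exact fun p h => by simp [ih _ h.2]
lemma neC (j : ℕ) : (C j).Nonempty := by
  induction j with
  | zero => simp [C]
  | succ j ih => exact ih.elim fun v h => ⟨_, mC (N1 j).pos h⟩

open Classical in
noncomputable def g (i k : ℕ) : ℝ≥0∞ := if k = 0 ∧ i ∈ range N then i else 2⁻¹ ^ (2 * i + k)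
noncomputable def ν (i : ℕ) : Measure ℝ≥0∞ := (geometricMeasure hf).map (g i)
instance (i : ℕ) : IsProbabilityMeasure (ν i) := isProbabilityMeasure_map (measurable_of_countable _).aemeasurable

lemma g0 (i k : ℕ) : 0 < g i k ∧ g i k < ∞ := by
  unfold g; split_ifs with h
  · obtain ⟨-, j, rfl⟩ := h
    exact ⟨by simpa using (N1 j).pos, by simp⟩
  · exact ⟨ENNReal.pow_pos (by simp) _, ENNReal.pow_lt_top (by simp)⟩
lemma νg (i k : ℕ) : 2⁻¹ ^ (k + 1) ≤ ν i {g i k} := by
  rw [← geo]; exact (measure_mono (by simp)).trans (le_map_apply (measurable_of_countable _).aemeasurable _)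
lemma νr (i : ℕ) : ∀ᵐ x ∂ν i, x ∈ range (g i) :=
  (ae_map_iff (measurable_of_countable _).aemeasurable (countable_range _).measurableSet).2 (by simp)

lemma pc {ι α : Type} [MeasurableSpace α] (μ : ι → Measure α) [∀ i, IsProbabilityMeasure (μ i)] (s : Finset ι)
    (t : ι → Set α) (ht : ∀ i, MeasurableSet (t i)) {p : ℝ≥0∞} (h : ∀ i, p ≤ μ i (t i)) :
    p ^ s.card ≤ infinitePi μ (pi s t) ∧ infinitePi μ (pi s fun i => (t i)ᶜ) ≤ (1 - p) ^ s.card := by
  rw [infinitePi_pi _ fun i _ => ht i, infinitePi_pi _ fun i _ => (ht i).compl]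
  exact ⟨Finset.pow_card_le_prod _ _ _ fun i _ => h i, Finset.prod_le_pow_card _ _ _ fun i _ => by
    rw [prob_compl_eq_one_sub (ht i)]; gcongr; exact h i⟩

lemma half (m : ℕ) : ((1 : ℝ≥0∞) - 2⁻¹ ^ m) ^ 2 ^ m ≤ 2⁻¹ := by
  have : (2⁻¹ : ℝ≥0∞) ^ m ≤ 1 := pow_le_one₀ zero_le (by simp)
  rw [← ENNReal.toReal_le_toReal (by finiteness) (by simp), ENNReal.toReal_pow, ENNReal.toReal_sub_of_le this (by simp)]
  have := Real.one_sub_div_pow_le_exp_neg (n := 2 ^ m) (t := 1) (by exact_mod_cast Nat.one_le_two_pow)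
  simpa using this.trans (Real.exp_neg_one_lt_d9.le.trans (by norm_num : _ ≤ (2⁻¹ : ℝ)))

def S (j : ℕ) : Finset ℕ := Finset.range j ∪ (Finset.range j).image N
def A (j : ℕ) : Set (ℕ → ℝ≥0∞) := pi (S j) fun i => {g i (j + 1)}
lemma mA (j) : MeasurableSet (A j) := .pi (Finset.countable_toSet _) fun _ _ => .singleton _
lemma μA (j) : 2⁻¹ ^ a j ≤ infinitePi ν (A (j + 1)) := by
  refine le_trans ?_ (pc ν _ _ (fun _ => .singleton _) fun i => νg i _).1
  rw [← pow_mul]
  refine pow_le_pow_of_le_one zero_le (by simp) (Nat.mul_le_mul_left _ ((Finset.card_union_le _ _).trans ?_))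
  have := Finset.card_image_le (s := Finset.range (j + 1)) (f := N)
  simp at *; omega

lemma small {j x} (h : x ∈ A j) (hr : ∀ i, x i ∈ range (g i)) {i} (hi : i < N j) :
    ∑ k ∈ Finset.range (i + 1), x k ≤ 2 * 2⁻¹ ^ j := by
  refine le_trans (Finset.sum_le_sum (g := fun k => 2⁻¹ ^ k * 2⁻¹ ^ j) fun k hk => ?_) ?_
  · rw [← pow_add]
    by_cases e : k ∈ S j
    · rw [show x k = _ from h k e, g, if_neg (by simp)]
      exact pow_le_pow_of_le_one zero_le (by simp) (by omega)
    · obtain ⟨l, hl⟩ := hr k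
      simp only [S, Finset.mem_union, Finset.mem_range, Finset.mem_image, not_or, not_exists, not_and] at e hk
      rw [← hl, g, if_neg fun ⟨_, m, hm⟩ => e.2 m (Nm.lt_iff_lt.1 (by omega)) hm]
      exact pow_le_pow_of_le_one zero_le (by simp) (by omega)
  · rw [← Finset.sum_mul]; gcongr
    exact (ENNReal.sum_le_tsum _).trans ENNReal.tsum_geometric_two.le

theorem result : ∃ ν : ℕ → Measure ℝ≥0∞, (∀ i, IsProbabilityMeasure (ν i)) ∧ (∀ i, ν i {0, ∞} = 0) ∧
    ∀ᵐ X ∂infinitePi fun _ : List ℕ => infinitePi ν,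
      τ X < ∞ ∧ (T X).Infinite ∧ ∀ u, {i | i :: u ∈ T X}.Finite := by
  have r : ∀ᵐ x ∂infinitePi ν, ∀ i, x i ∈ range (g i) := ae_all_iff.2 fun i =>
    (measurePreserving_eval_infinitePi ν i).quasiMeasurePreserving.ae (νr i)
  have big : ∀ᵐ x ∂infinitePi ν, ∀ m, ∃ l ≥ m, x (N l) = (N l : ℝ≥0∞) := ae_all_iff.2 fun m => by
    rw [ae_iff]
    refine le_zero_iff.1 (ge_of_tendsto' (ENNReal.tendsto_pow_atTop_nhds_zero_of_lt_one (r := 1 - 2⁻¹ ^ (0 + 1))
      (by simp)) fun L => ?_)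
    have := (pc ν ((Finset.Ico m (m + L)).image N) _ (fun _ => .singleton _) fun i => νg i 0).2
    rw [Finset.card_image_of_injective _ Nm.injective, Nat.card_Ico, Nat.add_sub_cancel_left] at this
    refine le_trans (measure_mono ?_) this
    refine fun x hx i hi e => hx ?_
    obtain ⟨l, hl, rfl⟩ := Finset.mem_image.1 hi
    exact ⟨l, (Finset.mem_Ico.1 hl).1, by simpa [g] using e⟩
  have bc : ∀ᵐ X ∂infinitePi fun _ : List ℕ => infinitePi ν, ∀ᶠ j in atTop,
      X ∉ ⋃ v ∈ C j, pi ((Finset.range (N j)).image (· :: v)) fun _ => (A (j + 1))ᶜ := by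
    refine ae_eventually_notMem (ne_top_of_le_ne_top (by simp) ((ENNReal.tsum_le_tsum fun j => ?_).trans
      ENNReal.tsum_geometric_two.le))
    refine (measure_biUnion_finset_le _ _).trans ((Finset.sum_le_card_nsmul _ _ (2⁻¹ ^ (c j + j)) fun v _ => ?_).trans ?_)
    · refine (pc _ _ _ (fun _ => mA _) fun _ => μA j).2.trans ?_
      rw [Finset.card_image_of_injective _ (fun _ _ h => (List.cons.inj h).1), Finset.card_range, N, mul_comm, pow_mul]
      gcongr; exact half _
    · rw [nsmul_eq_mul, pow_add, ← mul_assoc]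
      refine mul_le_of_le_one_left' ?_
      rw [← ENNReal.inv_pow, ← div_eq_mul_inv]
      exact ENNReal.div_le_of_le_mul (by exact_mod_cast (by simpa using (cC j).trans Nat.lt_two_pow_self.le))
  refine ⟨ν, inferInstance, fun i => measure_mono_null ?_ (ae_iff.1 (νr i)), ?_⟩
  · intro x hx ⟨k, e⟩
    rcases hx with rfl | rfl
    exacts [(g0 i k).1.ne' e, (g0 i k).2.ne e]
  filter_upwards [bc, ae_all_iff.2 fun u => (measurePreserving_eval_infinitePi (fun _ : List ℕ => infinitePi ν)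
    u).quasiMeasurePreserving.ae (r.and big)] with X h1 h2
  obtain ⟨J, hJ⟩ := eventually_atTop.1 h1
  have st : ∀ j ≥ J, ∀ v ∈ C j, ∃ i < N j, X (i :: v) ∈ A (j + 1) := fun j hj v hv => by
    by_contra! e
    exact hJ j hj (mem_biUnion hv (by simpa using e))
  have fin : ∀ u, B X u < ∞ := fun u => by
    induction u with
    | nil => simp [B]
    | cons i u ih => exact ENNReal.add_lt_top.2 ⟨ih, ENNReal.sum_lt_top.2 fun k _ => by
        obtain ⟨l, e⟩ := (h2 u).1 k; exact e.symm.trans_lt (g0 k l).2⟩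
  obtain ⟨v, hv⟩ := neC J
  obtain ⟨i, hi, hA⟩ := st J le_rfl v hv
  have path : ∀ j ≥ J + 1, ∃ w ∈ C j, X w ∈ A j ∧ B X w + 4 * 2⁻¹ ^ j ≤ B X (i :: v) + 4 := fun j hj => by
    induction j, hj using Nat.le_induction with
    | base => exact ⟨_, mC hi hv, hA, by gcongr; exact mul_le_of_le_one_right' (pow_le_one₀ zero_le (by simp))⟩
    | succ j hj ih =>
      obtain ⟨w, h1, h3, h4⟩ := ih
      obtain ⟨k, hk, hA⟩ := st j (by omega) w h1
      refine ⟨_, mC hk h1, hA, le_trans ?_ h4⟩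
      rw [B, add_assoc]; gcongr
      refine (add_le_add_left (small h3 (h2 w).1 hk) _).trans_eq ?_
      rw [pow_succ', ← mul_assoc, ← add_mul, ← div_eq_mul_inv, show (4 : ℝ≥0∞) = 2 * 2 by norm_num,
        ENNReal.mul_div_cancel_right (by simp) (by simp)]
      norm_num
  have t : τ X < ∞ := (sInf_le (a := B X (i :: v) + 4) fun f => by
    obtain ⟨n, hn⟩ := (f.image List.length).bddAbove
    obtain ⟨w, h1, -, h3⟩ := path (J + 1 + n) (by omega)
    have := hn ⟨w, le_self_add.trans h3, lC _ _ h1⟩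
    omega).trans_lt (by simpa using fin _)
  have deg : ∀ u, {i | B X (i :: u) ≤ τ X + 1}.Finite := fun u => by
    obtain ⟨m, hm⟩ := ENNReal.exists_nat_gt (r := τ X + 1) (by simpa using t.ne)
    obtain ⟨l, h3, h4⟩ := (h2 u).2 m
    refine (finite_lt_nat (N l)).subset fun k hk => show k < N l from not_le.1 fun e => hm.not_ge (le_trans ?_ (le_add_self.trans hk))
    refine le_trans ?_ (Finset.single_le_sum (fun _ _ => zero_le) (Finset.mem_range.2 (Nat.lt_succ_of_le e)))
    exact le_trans (by exact_mod_cast h3.trans (N1 l).le) h4.ge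
  refine ⟨t, inf X (fun u => ?_) t deg, fun u => (deg u).subset fun k hk =>
    show B X _ ≤ _ from (le_of_lt hk).trans le_self_add⟩
  obtain ⟨l, e⟩ := (h2 u).1 0
  exact (g0 0 l).1.trans_eq e

end Pool.Agent.Results.MP_f93fdf_pr.NoStar
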